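import Pool.Agent.V5helper10.GK.Stm2
import Pool.Agent.V5helper44.KSC.Main2

/-!
# Project GK, job CLS: classes with given values
-/

set_option autoImplicit false
set_option linter.unusedSectionVars false

open CategoryTheory AlgebraicGeometry TensorProduct

universe u

namespace Pool.Agent.V5helper3.GK

open Module Matrix
open Pool.Agent.H914 Pool.Agent.H914.VarClass Pool.Agent.H914.VarClass.Obj
  Pool.Agent.H914.WeilCohomology
open Pool.Agent.Y133.Half Pool.Agent.Y121.AH
open Pool.Agent.N996.BP Pool.Agent.N996.BP.Geo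
open Pool.Agent.V5helper10.KSC Pool.Agent.V5helper10.GK
open Pool.Agent.V5helper44.KSC (tr_wb)

theorem wb_deg {k : Type u} [Field k] {𝒱 : VarClass k} {ops : CycleOps 𝒱}
    (W : WeilCohomology.{u, 0} ops) (X : 𝒱.Obj) {κ : Type} [Fintype κ] [DecidableEq κ]
    (f : Basis κ W.K (W.H X)) : ∀ (n : ℕ) (I : Fin (n + 1) → κ),
    (∀ l, f (I l) ∈ W.gr X 2) → wb f n I ∈ W.gr (pw X n) (2 * (n + 1)) := by
  intro n
  induction n with
  | zero =>
    intro I hI
    rw [wb_zero]
    exact hI 0
  | succ n ih =>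
    intro I hI
    rw [wb_succ, mul_add _ (n + 1) 1]
    exact W.mul_mem (W.map_mem _ (ih _ fun l => hI _)) (W.map_mem _ (hI _))

/-- pure part: inversion of the tensor power of `B` -/
theorem inv_pow {r : ℕ} (B : Matrix (Fin r) (Fin r) ℚ) (hB : B.det ≠ 0) (n : ℕ)
    (t : (Fin n → Fin r) → ℚ) (J' : Fin n → Fin r) :
    ∑ J : Fin n → Fin r, (∑ I : Fin n → Fin r, (∏ l, B⁻¹ (I l) (J l)) * t I) *
      ∏ l, B (J l) (J' l) = t J' := by
  have h1 : ∀ i j, ∑ x, B⁻¹ i x * B x j = if i = j then 1 else 0 := by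
    intro i j
    have h2 : B⁻¹ * B = 1 := Matrix.nonsing_inv_mul B (isUnit_iff_ne_zero.mpr hB)
    have h3 := congrFun (congrFun h2 i) j
    rw [Matrix.mul_apply, Matrix.one_apply] at h3
    exact h3
  calc ∑ J : Fin n → Fin r, (∑ I : Fin n → Fin r, (∏ l, B⁻¹ (I l) (J l)) * t I) *
        ∏ l, B (J l) (J' l)
      = ∑ I : Fin n → Fin r, t I * ∑ J : Fin n → Fin r, ∏ l, (B⁻¹ (I l) (J l) * B (J l) (J' l)) := by
        simp only [Finset.sum_mul, Finset.mul_sum]
        rw [Finset.sum_comm]
        refine Finset.sum_congr rfl fun I _ => Finset.sum_congr rfl fun J _ => ?_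
        rw [Finset.prod_mul_distrib]
        ring
    _ = ∑ I : Fin n → Fin r, t I * ∏ l, ∑ x, (B⁻¹ (I l) x * B x (J' l)) := by
        refine Finset.sum_congr rfl fun I _ => ?_
        congr 1
        rw [Finset.prod_univ_sum, Fintype.piFinset_univ]
    _ = ∑ I : Fin n → Fin r, t I * (if I = J' then 1 else 0) := by
        refine Finset.sum_congr rfl fun I _ => ?_
        congr 1
        simp only [h1]
        by_cases h : I = J'
        · subst h
          simp
        · rw [if_neg h]
          obtain ⟨l, hl⟩ : ∃ l, I l ≠ J' l := by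
            by_contra hc
            push Not at hc
            exact h (funext hc)
          exact Finset.prod_eq_zero (Finset.mem_univ l) (if_neg hl)
    _ = t J' := by simp

theorem t_CLS : S_CLS.{u} := by
  intro k _ 𝒱 ops W X r s f B hr hs hrs hB hdet n t
  have he : ∀ j, f j ∈ PH W X 0 := by
    rintro (i | a)
    · obtain ⟨p, hp⟩ := hs i
      exact PH.of' (by omega) hp
    · exact PH.of' (by norm_num) (hr a)
  set a : (Fin (n + 1) → Fin r) → ℚ := fun J =>
    ∑ I : Fin (n + 1) → Fin r, (∏ l, B⁻¹ (I l) (J l)) * t I with ha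
  refine ⟨∑ J : Fin (n + 1) → Fin r, ((a J : ℚ) : W.K) • wb f n (fun l => Sum.inr (J l)), ?_, ?_, ?_⟩
  · refine Submodule.sum_mem _ fun J _ => Submodule.smul_mem _ _ ?_
    exact wb_deg W X f n _ fun l => hr _
  · intro J'
    rw [Finset.sum_mul, map_sum]
    have h1 : ∀ J : Fin (n + 1) → Fin r,
        W.tr (pw X n) ((((a J : ℚ) : W.K) • wb f n (fun l => Sum.inr (J l))) *
          wb f n (fun l => Sum.inr (J' l))) = ((a J * ∏ l, B (J l) (J' l) : ℚ) : W.K) := by
      intro J
      rw [smul_mul_assoc, map_smul, tr_wb f he, smul_eq_mul, Rat.cast_mul, Rat.cast_prod]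
      congr 1
      refine Finset.prod_congr rfl fun l _ => ?_
      rw [hB]
    simp only [h1]
    rw [← Rat.cast_sum, inv_pow B hdet (n + 1) t J']
  · intro I l i hI
    rw [Finset.sum_mul, map_sum]
    refine Finset.sum_eq_zero fun J _ => ?_
    rw [smul_mul_assoc, map_smul, tr_wb f he]
    have h2 : W.tr X (f (Sum.inr (J l)) * f (I l)) = 0 := by
      rw [hI, PH.comm (he _) (he _), map_smul, hrs, smul_zero]
    rw [Finset.prod_eq_zero (Finset.mem_univ l) h2, smul_zero]

end Pool.Agent.V5helper3.GK
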